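import Pool.Agent.helper80.EN.Spec

/-!
# EN row NAE (MP_43ab4e_al): a normal locally nilpotent subgroup extended by an Engel element
-/

set_option autoImplicit false

namespace Pool.Agent.helper80.EN

open Subgroup

universe u

theorem NAE_icom_mem {T : Type u} [Group T] (N : Subgroup T) (hN : N.Normal) (a n : T) (hn : n ∈ N) :
    ∀ j, icom n a j ∈ N := by
  intro j
  induction j with
  | zero => exact hn
  | succ j ih =>
    show (icom n a j)⁻¹ * a⁻¹ * icom n a j * a ∈ N
    have h1 : a⁻¹ * icom n a j * (a⁻¹)⁻¹ ∈ N := hN.conj_mem _ ih _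
    rw [inv_inv] at h1
    have h2 := N.mul_mem (N.inv_mem ih) h1
    have h3 : (icom n a j)⁻¹ * (a⁻¹ * icom n a j * a) = (icom n a j)⁻¹ * a⁻¹ * icom n a j * a := by
      group
    rw [← h3]
    exact h2

/-- row NAE -/
theorem NAE (hNB : NB_stmt.{u}) (_hBAS : BAS_stmt.{u}) (hTRF : TRF_stmt.{u}) : NAE_stmt.{u} := by
  intro T _ N a hN hloc heng K hK hKle
  obtain ⟨S, hS⟩ := hK
  haveI := hN
  have hdec : ∀ s : T, s ∈ K → ∃ n ∈ N, ∃ z ∈ zpowers a, n * z = s := by
    intro s hs
    exact Subgroup.mem_sup_of_normal_left.1 (hKle hs)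
  have hSK : ∀ s ∈ S, s ∈ K := by
    intro s hs
    rw [← hS]
    exact subset_closure hs
  have hch : ∀ s : T, ∃ n ∈ N, ∃ m : ℕ, icom n a m = 1 ∧ (s ∈ S → ∃ z ∈ zpowers a, n * z = s) := by
    intro s
    by_cases hs : s ∈ S
    · obtain ⟨n, hn, z, hz, hnz⟩ := hdec s (hSK s hs)
      obtain ⟨m, hm⟩ := heng n hn
      exact ⟨n, hn, m, hm, fun _ => ⟨z, hz, hnz⟩⟩
    · exact ⟨1, N.one_mem, 0, rfl, fun h => absurd h hs⟩
  choose n hn m hm hz using hch
  set X : Set T := ⋃ s ∈ S, (fun j => icom (n s) a j) '' (Finset.range (m s + 1) : Set ℕ) with hX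
  set B : Subgroup T := closure X with hB
  have hXfin : X.Finite := by
    rw [hX]
    refine Set.Finite.biUnion S.finite_toSet fun s _ => ?_
    exact Set.Finite.image _ (Finset.finite_toSet _)
  have hmemX : ∀ s ∈ S, ∀ j ≤ m s, icom (n s) a j ∈ B := by
    intro s hs j hj
    refine subset_closure ?_
    rw [hX]
    simp only [Set.mem_iUnion]
    refine ⟨s, hs, j, ?_, rfl⟩
    simp only [Finset.coe_range, Set.mem_Iio]
    omega
  have hXel : ∀ x ∈ X, ∃ s ∈ S, ∃ j ≤ m s, icom (n s) a j = x := by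
    intro x hx
    rw [hX] at hx
    simp only [Set.mem_iUnion] at hx
    obtain ⟨s, hs, j, hj, hjx⟩ := hx
    refine ⟨s, hs, j, ?_, hjx⟩
    simp only [Finset.coe_range, Set.mem_Iio] at hj
    omega
  have hBfg : B.FG := ⟨hXfin.toFinset, by rw [Set.Finite.coe_toFinset]⟩
  have hBN : B ≤ N := by
    rw [hB, closure_le]
    intro x hx
    obtain ⟨s, _, j, _, rfl⟩ := hXel x hx
    exact NAE_icom_mem N hN a (n s) (hn s) j
  have hstep : ∀ (s : T) (j : ℕ), a⁻¹ * icom (n s) a j * a = icom (n s) a j * icom (n s) a (j + 1) := by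
    intro s j
    show a⁻¹ * icom (n s) a j * a = icom (n s) a j * ((icom (n s) a j)⁻¹ * a⁻¹ * icom (n s) a j * a)
    group
  have hlast : ∀ s : T, icom (n s) a (m s + 1) = 1 := by
    intro s
    show (icom (n s) a (m s))⁻¹ * a⁻¹ * icom (n s) a (m s) * a = 1
    rw [hm s]
    group
  have hmem' : ∀ s ∈ S, ∀ j ≤ m s + 1, icom (n s) a j ∈ B := by
    intro s hs j hj
    rcases Nat.lt_or_ge j (m s + 1) with h | h
    · exact hmemX s hs j (by omega)
    · have : j = m s + 1 := by omega
      rw [this, hlast s]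
      exact B.one_mem
  have hc1 : ∀ b ∈ B, a⁻¹ * b * a ∈ B := by
    have hle : B ≤ B.comap (MulAut.conj a⁻¹).toMonoidHom := by
      rw [hB, closure_le]
      intro x hx
      obtain ⟨s, hs, j, hj, rfl⟩ := hXel x hx
      show (MulAut.conj a⁻¹) (icom (n s) a j) ∈ closure X
      rw [MulAut.conj_apply, inv_inv, hstep]
      exact mul_mem (hmem' s hs j (by omega)) (hmem' s hs (j + 1) (by omega))
    intro b hb
    have h := hle hb
    have h2 : (MulAut.conj a⁻¹) b ∈ B := h
    rw [MulAut.conj_apply, inv_inv] at h2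
    exact h2
  have hdown : ∀ s ∈ S, ∀ i ≤ m s + 1, a * icom (n s) a (m s + 1 - i) * a⁻¹ ∈ B := by
    intro s hs i
    induction i with
    | zero =>
      intro _
      rw [Nat.sub_zero, hlast s]
      simpa using B.one_mem
    | succ i ih =>
      intro hi
      have h1 := ih (by omega)
      obtain ⟨j, hj⟩ : ∃ j, m s + 1 - i = j + 1 := ⟨m s - i, by omega⟩
      have hj' : m s + 1 - (i + 1) = j := by omega
      rw [hj] at h1
      rw [hj']
      have h2 : a * icom (n s) a j * a⁻¹ = icom (n s) a j * (a * icom (n s) a (j + 1) * a⁻¹)⁻¹ := by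
        have h3 := hstep s j
        have h4 : icom (n s) a j = a * (icom (n s) a j * icom (n s) a (j + 1)) * a⁻¹ := by
          rw [← h3]; group
        rw [eq_mul_inv_iff_mul_eq]
        have h5 : a * icom (n s) a j * a⁻¹ * (a * icom (n s) a (j + 1) * a⁻¹) =
            a * (icom (n s) a j * icom (n s) a (j + 1)) * a⁻¹ := by group
        rw [h5]
        exact h4.symm
      rw [h2]
      exact mul_mem (hmem' s hs j (by omega)) (inv_mem h1)
  have hc2 : ∀ b ∈ B, a * b * a⁻¹ ∈ B := by
    have hle : B ≤ B.comap (MulAut.conj a).toMonoidHom := by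
      rw [hB, closure_le]
      intro x hx
      obtain ⟨s, hs, j, hj, rfl⟩ := hXel x hx
      show (MulAut.conj a) (icom (n s) a j) ∈ closure X
      rw [MulAut.conj_apply]
      have h := hdown s hs (m s + 1 - j) (by omega)
      have h2 : m s + 1 - (m s + 1 - j) = j := by omega
      rw [h2] at h
      exact h
    intro b hb
    have h := hle hb
    have h2 : (MulAut.conj a) b ∈ B := h
    rw [MulAut.conj_apply] at h2
    exact h2
  have hnilB : Group.IsNilpotent B := hloc B hBfg hBN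
  have hnil := hNB T B a hBfg hnilB hc1 hc2 (fun x hx => heng x (hBN hx))
  have hl : LocNilp (B ⊔ zpowers a) := (hTRF T).2.2.2.2.1 _ hnil
  refine hl K ⟨S, hS⟩ ?_
  rw [← hS, closure_le]
  intro s hs
  obtain ⟨z, hz1, hz2⟩ := hz s hs
  rw [← hz2]
  have h0 : n s ∈ B := hmemX s hs 0 (Nat.zero_le _)
  exact mul_mem (mem_sup_left h0) (mem_sup_right hz1)

end Pool.Agent.helper80.EN
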